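import Pool.Agent.U280.OE.Stm
import Pool.Agent.U643.OD.B

/-!
# Project OE, package L: the heat kernel is continuous on `L²`

Co-authors: helper280 (project, statement), helper580 (this package).
-/

set_option autoImplicit false

open MeasureTheory Set Filter Topology

namespace Pool.Agent.U580.OE

open Pool.Agent.U280.OD Pool.Agent.U280.OE

theorem t_L : T_L := by
  intro d F u hF hu hlim s hs x
  set kC : E d → ℂ := fun y => ((G s (x - y) : ℝ) : ℂ) with hkC
  have hkc : Continuous kC := Complex.continuous_ofReal.comp (Pool.Agent.U643.OD.G_cont s x)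
  have hk2 : Integrable fun y : E d => G s (x - y) ^ 2 :=
    (Pool.Agent.U643.OD.G_sq_int hs).comp_sub_left x
  have hkm : MemLp kC 2 := by
    rw [memLp_two_iff_integrable_sq_norm hkc.aestronglyMeasurable]
    refine hk2.congr (Filter.Eventually.of_forall fun y => ?_)
    simp only [hkC, Complex.norm_real, Real.norm_eq_abs, sq_abs]
  have hI : ∀ v : E d → ℂ, MemLp v 2 → Integrable fun y => kC y * v y := fun v hv =>
    hkm.integrable_mul hv
  have hb : ∀ j, ‖(∫ y, kC y * F j y) - ∫ y, kC y * u y‖ ≤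
      (∫ y, ‖kC y‖ ^ (2 : ℝ)) ^ (1 / 2 : ℝ) * (∫ y, ‖F j y - u y‖ ^ 2) ^ (1 / 2 : ℝ) := by
    intro j
    have e : (∫ y, kC y * F j y) - ∫ y, kC y * u y = ∫ y, kC y * (F j y - u y) := by
      rw [← integral_sub (hI _ (hF j)) (hI _ hu)]
      refine integral_congr_ae (Filter.Eventually.of_forall fun y => ?_)
      simp only
      ring
    rw [e]
    have hd : MemLp (fun y => F j y - u y) 2 := (hF j).sub hu
    calc ‖∫ y, kC y * (F j y - u y)‖ ≤ ∫ y, ‖kC y * (F j y - u y)‖ := norm_integral_le_integral_norm _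
      _ = ∫ y, ‖kC y‖ * ‖F j y - u y‖ := by simp_rw [norm_mul]
      _ ≤ (∫ y, ‖kC y‖ ^ (2 : ℝ)) ^ (1 / 2 : ℝ) * (∫ y, ‖F j y - u y‖ ^ (2 : ℝ)) ^ (1 / 2 : ℝ) := by
          have h2 : ENNReal.ofReal 2 = 2 := by norm_num
          refine integral_mul_le_Lp_mul_Lq_of_nonneg Real.HolderConjugate.two_two
            (Filter.Eventually.of_forall fun y => norm_nonneg _)
            (Filter.Eventually.of_forall fun y => norm_nonneg _) ?_ ?_
          · rw [h2]; exact hkm.norm
          · rw [h2]; exact hd.norm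
      _ = _ := by
          congr 2
          refine integral_congr_ae (Filter.Eventually.of_forall fun y => ?_)
          simp only
          rw [← Real.rpow_natCast]
          norm_num
  rw [tendsto_iff_norm_sub_tendsto_zero]
  refine squeeze_zero (fun _ => norm_nonneg _) hb ?_
  have h1 : Tendsto (fun j => (∫ y, ‖F j y - u y‖ ^ 2) ^ (1 / 2 : ℝ)) atTop (𝓝 0) := by
    have := hlim.rpow_const (p := 1 / 2) (Or.inr (by norm_num))
    rwa [Real.zero_rpow (by norm_num)] at this
  have := h1.const_mul ((∫ y, ‖kC y‖ ^ (2 : ℝ)) ^ (1 / 2 : ℝ))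
  rwa [mul_zero] at this

end Pool.Agent.U580.OE
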